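import Pool.Agent.Helper77.RL.Goals3

/-!
# Project RL (MP_fc6b1e_nt): packet X_TWI

From `TwistAll` to `TwistGoodN`.
-/

namespace Pool.Agent.Helper42.RL

open NumberField Polynomial Module IsDedekindDomain TensorProduct Pool.Agent.Helper51.SigLeo
open Pool.Agent.Helper51.RP Pool.Agent.Helper77.RL

/-- A finite cyclic group has a faithful character. -/
theorem exists_faithful {A B : Type*} [Group A] [Finite A] [IsCyclic A] [CommGroup B] (ζ : B)
    (hζ : IsPrimitiveRoot ζ (Nat.card A)) :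
    ∃ φ : A →* B, Function.Injective φ ∧ ∃ a, φ a = ζ := by
  obtain ⟨g, hg⟩ := IsCyclic.exists_generator (α := A)
  have hord : orderOf g = Nat.card A := orderOf_eq_card_of_forall_mem_zpowers hg
  have hζo : orderOf ζ = Nat.card A := hζ.eq_orderOf.symm
  have hd : orderOf ζ ∣ orderOf g := by rw [hord, hζo]
  refine ⟨monoidHomOfForallMemZpowers hg hd, ?_, g, monoidHomOfForallMemZpowers_apply_gen hg hd⟩
  rw [injective_iff_map_eq_one]
  intro a ha
  obtain ⟨i, rfl⟩ := Subgroup.mem_zpowers_iff.1 (hg a)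
  rw [map_zpow, monoidHomOfForallMemZpowers_apply_gen, ← orderOf_dvd_iff_zpow_eq_one, hζo,
    ← hord, orderOf_dvd_iff_zpow_eq_one] at ha
  exact ha

/-- The group theory: `φ` of order `p`, `ψ` of order `p^n`. -/
theorem exists_gen {G B : Type*} [Group G] [CommGroup B] {p : ℕ} (hp : p.Prime)
    (φ ψ : G →* B) (ω ζ : B) (hω : IsPrimitiveRoot ω p)
    (hφ : ∀ g, φ g ∈ Subgroup.zpowers ω) (hψ : ∃ g, ψ g = ζ)
    (hne : ∃ h, ψ h = 1 ∧ φ h ≠ 1) : ∃ g, φ g = 1 ∧ ψ g = ζ := by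
  obtain ⟨h, hh1, hh2⟩ := hne
  obtain ⟨g, hg⟩ := hψ
  have h1 : ω ∈ Subgroup.zpowers (φ h) := by
    obtain ⟨i, hi⟩ := Subgroup.mem_zpowers_iff.1 (hφ h)
    have hω1 : orderOf ω = p := hω.eq_orderOf.symm
    have hcard : Nat.card (Subgroup.zpowers ω) = p := by rw [Nat.card_zpowers, hω1]
    have hpf : Fact p.Prime := ⟨hp⟩
    have hpc : Fact (Nat.card (Subgroup.zpowers ω)).Prime := ⟨by rw [hcard]; exact hp⟩
    have h2 : (⟨φ h, hφ h⟩ : Subgroup.zpowers ω) ≠ 1 := fun h3 =>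
      hh2 (congrArg Subtype.val h3)
    have h3 := mem_zpowers_of_prime_card (p := p)
      (g' := (⟨ω, Subgroup.mem_zpowers ω⟩ : Subgroup.zpowers ω)) hcard h2
    obtain ⟨j, hj⟩ := Subgroup.mem_zpowers_iff.1 h3
    exact Subgroup.mem_zpowers_iff.2 ⟨j, congrArg Subtype.val hj⟩
  have h2 : φ g ∈ Subgroup.zpowers (φ h) :=
    (Subgroup.zpowers_le.2 h1) (hφ g)
  obtain ⟨i, hi⟩ := Subgroup.mem_zpowers_iff.1 h2
  refine ⟨g * (h ^ i)⁻¹, ?_, ?_⟩
  · rw [map_mul, map_inv, map_zpow, hi, mul_inv_cancel]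
  · rw [map_mul, map_inv, map_zpow, hh1, one_zpow, inv_one, mul_one, hg]

section field

variable {K Ω : Type} [Field K] [Field Ω] [Algebra K Ω] [IsGalois K Ω]

omit [IsGalois K Ω] in
theorem restrict_eq_one_iff (F : IntermediateField K Ω) [Normal K F] (g : Ω ≃ₐ[K] Ω) :
    AlgEquiv.restrictNormalHom F g = 1 ↔ g ∈ F.fixingSubgroup := by
  rw [← F.restrictNormalHom_ker, MonoidHom.mem_ker]

theorem le_of_fixing {E F : IntermediateField K Ω}
    (h : F.fixingSubgroup ≤ E.fixingSubgroup) : E ≤ F := by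
  rw [← InfiniteGalois.fixedField_fixingSubgroup E, ← InfiniteGalois.fixedField_fixingSubgroup F]
  exact IntermediateField.fixedField_antitone h

/-- The fixed field of the kernel of a character which is trivial on `Gal(Ω/C)`. -/
theorem kernel_field {B : Type} [CommGroup B] (C : IntermediateField K Ω) [FiniteDimensional K C]
    (φ : (Ω ≃ₐ[K] Ω) →* B) (hC : C.fixingSubgroup ≤ φ.ker) :
    ∃ N : IntermediateField K Ω, N.fixingSubgroup = φ.ker ∧ N ≤ C ∧ IsGalois K N ∧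
      FiniteDimensional K N ∧ finrank K N = Nat.card φ.range := by
  have hopen : IsOpen (φ.ker : Set (Ω ≃ₐ[K] Ω)) :=
    Subgroup.isOpen_mono hC C.fixingSubgroup_isOpen
  have hclosed : IsClosed (φ.ker : Set (Ω ≃ₐ[K] Ω)) := Subgroup.isClosed_of_isOpen _ hopen
  have hfix := InfiniteGalois.fixingSubgroup_fixedField (k := K) (K := Ω) ⟨φ.ker, hclosed⟩
  have hfix' : (IntermediateField.fixedField φ.ker).fixingSubgroup = φ.ker := hfix
  refine ⟨IntermediateField.fixedField φ.ker, hfix', ?_, ?_, ?_, ?_⟩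
  · exact le_of_fixing (by rw [hfix']; exact hC)
  · rw [← InfiniteGalois.normal_iff_isGalois, hfix']
    infer_instance
  · rw [← InfiniteGalois.isOpen_iff_finite, hfix']
    exact hopen
  · rw [IntermediateField.finrank_eq_fixingSubgroup_index, hfix', Subgroup.index_ker]

end field

/-- Roots of unity are powers of a primitive one. -/
theorem mem_zpowers_of_pow {k : Type} [Field k] {N : ℕ} (hN : N ≠ 0) {ζ : kˣ}
    (hζ : IsPrimitiveRoot ζ N) {u : kˣ} (hu : u ^ N = 1) : u ∈ Subgroup.zpowers ζ := by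
  have hNZ : NeZero N := ⟨hN⟩
  have h1 : IsPrimitiveRoot (ζ : k) N := IsPrimitiveRoot.coe_units_iff.2 hζ
  obtain ⟨i, -, hi⟩ := h1.eq_pow_of_pow_eq_one (ξ := (u : k)) (by
    rw [← Units.val_pow_eq_pow_val, hu, Units.val_one])
  refine Subgroup.mem_zpowers_iff.2 ⟨i, ?_⟩
  rw [zpow_natCast]
  exact Units.ext (by rw [Units.val_pow_eq_pow_val, hi])

/-- **X_TWI.** -/
theorem x_twi : X_TWI := by
  classical
  intro p hp n hn K _ _ M _ _ hcop N L _ _ _ hN hLc hL hNL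
  have hp' : p.Prime := hp.out
  have hNfin : FiniteDimensional K N := FiniteDimensional.of_finrank_pos (by
    rw [hN]; exact hp'.pos)
  have hMfin : FiniteDimensional K M := Module.Finite.of_restrictScalars_finite ℚ K M
  have hLfin : FiniteDimensional K L := Module.Finite.of_restrictScalars_finite ℚ K L
  have hcN : Nat.card (N ≃ₐ[K] N) = p := by rw [IsGalois.card_aut_eq_finrank, hN]
  have hcL : Nat.card (L ≃ₐ[K] L) = p ^ n := by rw [IsGalois.card_aut_eq_finrank, hL]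
  have hcM : Nat.card (M ≃ₐ[K] M) = finrank K M := IsGalois.card_aut_eq_finrank K M
  have hNc : IsCyclic (N ≃ₐ[K] N) := isCyclic_of_prime_card hcN
  have hp0 : (p : ℂ_[p]) ≠ 0 := Nat.cast_ne_zero.2 hp'.ne_zero
  have hNZ1 : NeZero (p : ℂ_[p]) := ⟨hp0⟩
  have hNZ2 : NeZero ((p ^ n : ℕ) : ℂ_[p]) := ⟨Nat.cast_ne_zero.2 (pow_ne_zero n hp'.ne_zero)⟩
  obtain ⟨ω', hω'⟩ := HasEnoughRootsOfUnity.exists_primitiveRoot ℂ_[p] p
  obtain ⟨ζ', hζ'⟩ := HasEnoughRootsOfUnity.exists_primitiveRoot ℂ_[p] (p ^ n)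
  obtain ⟨ω, hω⟩ : ∃ ω : ℂ_[p]ˣ, IsPrimitiveRoot ω p :=
    ⟨(hω'.isUnit hp'.ne_zero).unit, IsPrimitiveRoot.coe_units_iff.1 hω'⟩
  obtain ⟨ζ, hζ⟩ : ∃ ζ : ℂ_[p]ˣ, IsPrimitiveRoot ζ (p ^ n) :=
    ⟨(hζ'.isUnit (pow_ne_zero n hp'.ne_zero)).unit, IsPrimitiveRoot.coe_units_iff.1 hζ'⟩
  obtain ⟨φ₀, hφ₀, -⟩ := exists_faithful (A := N ≃ₐ[K] N) ω (by rw [hcN]; exact hω)
  obtain ⟨ψ₀, hψ₀, l₀, hl₀⟩ := exists_faithful (A := L ≃ₐ[K] L) ζ (by rw [hcL]; exact hζ)
  obtain ⟨Φ, hΦ⟩ : ∃ Φ : (AlgebraicClosure K ≃ₐ[K] AlgebraicClosure K) →* ℂ_[p]ˣ,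
      ∀ g, Φ g = φ₀ (AlgEquiv.restrictNormalHom N g) := ⟨φ₀.comp (AlgEquiv.restrictNormalHom N),
    fun _ => rfl⟩
  obtain ⟨Ψ, hΨ⟩ : ∃ Ψ : (AlgebraicClosure K ≃ₐ[K] AlgebraicClosure K) →* ℂ_[p]ˣ,
      ∀ g, Ψ g = ψ₀ (AlgEquiv.restrictNormalHom L g) := ⟨ψ₀.comp (AlgEquiv.restrictNormalHom L),
    fun _ => rfl⟩
  have hΦ1 : ∀ g, Φ g = 1 ↔ g ∈ N.fixingSubgroup := fun g => by
    rw [hΦ, ← restrict_eq_one_iff, map_eq_one_iff φ₀ hφ₀]
  have hΨ1 : ∀ g, Ψ g = 1 ↔ g ∈ L.fixingSubgroup := fun g => by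
    rw [hΨ, ← restrict_eq_one_iff, map_eq_one_iff ψ₀ hψ₀]
  have hNp : ∀ a : N ≃ₐ[K] N, a ^ p = 1 := fun a => by
    have h := pow_card_eq_one' (x := a)
    rwa [hcN] at h
  have hΦp : ∀ g, Φ g ^ p = 1 := fun g => by
    rw [hΦ, ← map_pow, hNp, map_one]
  have hΨp : ∀ g, Ψ g ^ p ^ n = 1 := fun g => by
    rw [hΨ, ← map_pow, ← hcL, pow_card_eq_one', map_one]
  obtain ⟨g₁, hg₁1, hg₁2⟩ := exists_gen hp' Φ Ψ ω ζ hω
    (fun g => mem_zpowers_of_pow hp'.ne_zero hω (hΦp g))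
    (by
      obtain ⟨g, hg⟩ := AlgEquiv.restrictNormalHom_surjective (F := K) (K₁ := L)
        (AlgebraicClosure K) l₀
      exact ⟨g, by rw [hΨ, hg, hl₀]⟩)
    (by
      by_contra hcon
      push Not at hcon
      exact hNL (le_of_fixing fun g hg => (hΦ1 g).1 (hcon g ((hΨ1 g).2 hg))))
  obtain ⟨Θ, hΘ⟩ : ∃ Θ : (AlgebraicClosure K ≃ₐ[K] AlgebraicClosure K) →* ℂ_[p]ˣ,
      ∀ g, Θ g = Φ g * Ψ g := ⟨Φ * Ψ, fun _ => rfl⟩
  have hΘg₁ : Θ g₁ = ζ := by rw [hΘ, hg₁1, hg₁2, one_mul]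
  have hΘp : ∀ g, Θ g ^ p ^ n = 1 := fun g => by
    rw [hΘ, mul_pow, hΨp, mul_one, ← Nat.sub_add_cancel hn, pow_succ', pow_mul, hΦp, one_pow]
  have hΘz : ∀ g, ∃ i : ℤ, Θ g = ζ ^ i := fun g => by
    obtain ⟨i, hi⟩ := Subgroup.mem_zpowers_iff.1
      (mem_zpowers_of_pow (pow_ne_zero n hp'.ne_zero) hζ (hΘp g))
    exact ⟨i, hi.symm⟩
  have hrange : Θ.range = Subgroup.zpowers ζ := by
    apply le_antisymm
    · rintro _ ⟨g, rfl⟩
      exact mem_zpowers_of_pow (pow_ne_zero n hp'.ne_zero) hζ (hΘp g)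
    · rw [Subgroup.zpowers_le]
      exact ⟨g₁, hΘg₁⟩
  obtain ⟨N', hN'1, hN'2, hN'3, hN'4, hN'5⟩ := kernel_field (N ⊔ L) Θ (by
    intro g hg
    rw [MonoidHom.mem_ker, hΘ,
      (hΦ1 g).2 (IntermediateField.fixingSubgroup_antitone le_sup_left hg),
      (hΨ1 g).2 (IntermediateField.fixingSubgroup_antitone le_sup_right hg), one_mul])
  have hΘ1 : ∀ g, Θ g = 1 ↔ g ∈ N'.fixingSubgroup := fun g => by rw [hN'1, MonoidHom.mem_ker]
  refine ⟨N', ?_, hN'3, ?_, hN'2, ?_, ?_⟩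
  · rw [hN'5, hrange, Nat.card_zpowers, ← hζ.eq_orderOf]
  · refine ⟨AlgEquiv.restrictNormalHom N' g₁, fun σ => ?_⟩
    obtain ⟨g, rfl⟩ := AlgEquiv.restrictNormalHom_surjective (F := K) (K₁ := N')
      (AlgebraicClosure K) σ
    obtain ⟨i, hi⟩ := hΘz g
    refine Subgroup.mem_zpowers_iff.2 ⟨i, ?_⟩
    have h1 : Θ ((g₁ ^ i)⁻¹ * g) = 1 := by
      rw [map_mul, map_inv, map_zpow, hΘg₁, hi, inv_mul_cancel]
    rw [hΘ1, ← restrict_eq_one_iff, map_mul, map_inv, map_zpow, inv_mul_eq_one] at h1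
    exact h1
  · refine le_of_fixing fun g hg => ?_
    have h1 := (hΘ1 g).2 (IntermediateField.fixingSubgroup_antitone le_sup_left hg)
    have h2 := (hΨ1 g).2 (IntermediateField.fixingSubgroup_antitone le_sup_right hg)
    rw [hΘ, h2, mul_one] at h1
    exact (hΦ1 g).1 h1
  · intro ιinf ιp Lg S χ₀ hχ₀ hall H hH χ hχ hcond
    have hMH : M ≤ H := by rw [hH]; exact le_sup_left
    have hN'H : N' ≤ H := by rw [hH]; exact le_sup_right
    have hHfin : FiniteDimensional K H := by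
      rw [hH]; exact IntermediateField.finiteDimensional_sup M N'
    have hHnorm : Normal K H := by
      rw [hH]; exact IntermediateField.normal_sup K (AlgebraicClosure K) M N'
    have hcond' : ∀ g : AlgebraicClosure K ≃ₐ[K] AlgebraicClosure K,
        χ (AlgEquiv.restrictNormalHom H g) ^ p ^ n =
          χ₀ (AlgEquiv.restrictNormalHom M g) ^ p ^ n := by
      intro g
      refine hcond _ _ fun x y hxy => ?_
      have h1 := AlgEquiv.restrictNormal_commutes g H y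
      have h2 := AlgEquiv.restrictNormal_commutes g M x
      have h3 : ((AlgEquiv.restrictNormalHom H g y : H) : AlgebraicClosure K) =
        g (y : AlgebraicClosure K) := h1
      have h4 : ((AlgEquiv.restrictNormalHom M g x : M) : AlgebraicClosure K) =
        g (x : AlgebraicClosure K) := h2
      rw [h3, h4, hxy]
    -- the character `χ₁ = χ / χ₀`
    obtain ⟨X, hX⟩ : ∃ X : (AlgebraicClosure K ≃ₐ[K] AlgebraicClosure K) →* ℂ_[p]ˣ,
        ∀ g, X g = χ (AlgEquiv.restrictNormalHom H g) *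
          (χ₀ (AlgEquiv.restrictNormalHom M g))⁻¹ :=
      ⟨(χ.comp (AlgEquiv.restrictNormalHom H)) * (χ₀.comp (AlgEquiv.restrictNormalHom M))⁻¹,
        fun _ => rfl⟩
    have hX' : ∀ g, χ (AlgEquiv.restrictNormalHom H g) =
        χ₀ (AlgEquiv.restrictNormalHom M g) * X g := fun g => by
      rw [hX, mul_comm (χ _), mul_inv_cancel_left]
    have hXp : ∀ g, X g ^ p ^ n = 1 := fun g => by
      rw [hX, mul_pow, inv_pow, hcond' g, mul_inv_cancel]
    have hMm : ∀ g : AlgebraicClosure K ≃ₐ[K] AlgebraicClosure K,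
        AlgEquiv.restrictNormalHom M (g ^ finrank K M) = 1 := fun g => by
      rw [map_pow, ← hcM, pow_card_eq_one']
    have hXker : ∀ g, g ∈ N'.fixingSubgroup → X g = 1 := by
      intro g hg
      have h1 : g ^ finrank K M ∈ M.fixingSubgroup := by
        rw [← restrict_eq_one_iff]; exact hMm g
      have h2 : g ^ finrank K M ∈ N'.fixingSubgroup := Subgroup.pow_mem _ hg _
      have h3 : g ^ finrank K M ∈ H.fixingSubgroup := by
        rw [hH, IntermediateField.fixingSubgroup_sup]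
        exact ⟨h1, h2⟩
      have h4 : X (g ^ finrank K M) = 1 := by
        rw [hX, (restrict_eq_one_iff H _).2 h3, hMm g, map_one, map_one, inv_one, one_mul]
      rw [map_pow] at h4
      have h5 : orderOf (X g) ∣ finrank K M := orderOf_dvd_of_pow_eq_one h4
      have h6 : orderOf (X g) ∣ p ^ n := orderOf_dvd_of_pow_eq_one (hXp g)
      have h7 : (finrank K M).Coprime (p ^ n) := Nat.Coprime.pow_right n hcop
      have h8 := Nat.eq_one_of_dvd_coprimes h7 h5 h6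
      exact orderOf_eq_one_iff.1 h8
    obtain ⟨u, hu⟩ : ∃ u : ℕ, X g₁ = ζ ^ u := by
      obtain ⟨i, hi⟩ := Subgroup.mem_zpowers_iff.1
        (mem_zpowers_of_pow (pow_ne_zero n hp'.ne_zero) hζ (hXp g₁))
      have hfin : IsOfFinOrder ζ := by
        rw [← orderOf_pos_iff, ← hζ.eq_orderOf]; exact pow_pos hp'.pos n
      obtain ⟨j, hj⟩ := (hfin.mem_powers_iff_mem_zpowers (y := X g₁)).2
        (Subgroup.mem_zpowers_iff.2 ⟨i, hi⟩)
      exact ⟨j, hj.symm⟩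
    have hXΘ : ∀ g, X g = Θ g ^ u := by
      intro g
      obtain ⟨i, hi⟩ := hΘz g
      have h1 : Θ ((g₁ ^ i)⁻¹ * g) = 1 := by
        rw [map_mul, map_inv, map_zpow, hΘg₁, hi, inv_mul_cancel]
      have h2 := hXker _ ((hΘ1 _).1 h1)
      rw [map_mul, map_inv, map_zpow, inv_mul_eq_one] at h2
      rw [← h2, hu, hi, ← zpow_natCast, ← zpow_natCast, ← zpow_mul, ← zpow_mul, mul_comm]
    have hucop : ¬ p ∣ u := by
      rintro ⟨v, hv⟩
      obtain ⟨g, hg⟩ : ∃ g, g = (g₁ ^ p ^ (n - 1)) ^ finrank K M := ⟨_, rfl⟩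
      have h1 : Θ g = (ζ ^ p ^ (n - 1)) ^ finrank K M := by rw [hg, map_pow, map_pow, hΘg₁]
      have h2 : Θ g ^ p = 1 := by
        rw [h1, ← pow_mul, mul_comm (finrank K M), pow_mul, ← pow_mul ζ, ← pow_succ,
          Nat.sub_add_cancel hn, hζ.pow_eq_one, one_pow]
      have h3 : AlgEquiv.restrictNormalHom M g = 1 := by rw [hg]; exact hMm _
      have h4 : χ (AlgEquiv.restrictNormalHom H g) = 1 := by
        rw [hX', h3, map_one, one_mul, hXΘ, hv, pow_mul, h2, one_pow]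
      have h5 : g ∈ H.fixingSubgroup := by
        rw [← restrict_eq_one_iff]
        exact (map_eq_one_iff χ hχ).1 h4
      have h6 : Θ g = 1 := (hΘ1 g).2 (IntermediateField.fixingSubgroup_antitone hN'H h5)
      have h7 : IsPrimitiveRoot (ζ ^ p ^ (n - 1)) p :=
        hζ.pow (pow_pos hp'.pos n) (by rw [← pow_succ, Nat.sub_add_cancel hn])
      rw [h1, h7.pow_eq_one_iff_dvd] at h6
      have h8 := Nat.Coprime.eq_one_of_dvd hcop.symm h6
      exact hp'.one_lt.ne' h8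
    refine hall H χ (φ₀ ^ u) (ψ₀ ^ u) hχ ?_ ?_
    · rw [injective_iff_map_eq_one]
      intro a ha
      rw [MonoidHom.pow_apply] at ha
      have h1 : φ₀ a ^ p = 1 := by rw [← map_pow, hNp, map_one]
      have h2 : orderOf (φ₀ a) ∣ u := orderOf_dvd_of_pow_eq_one ha
      have h3 : orderOf (φ₀ a) ∣ p := orderOf_dvd_of_pow_eq_one h1
      rcases (Nat.dvd_prime hp').1 h3 with h4 | h4
      · exact (map_eq_one_iff φ₀ hφ₀).1 (orderOf_eq_one_iff.1 h4)
      · rw [h4] at h2; exact absurd h2 hucop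
    · intro g
      rw [hX', hXΘ, hΘ, mul_pow, MonoidHom.pow_apply, MonoidHom.pow_apply, hΦ, hΨ, mul_assoc]

end Pool.Agent.Helper42.RL
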